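import Pool.Agent.N195.PJ.E2c

/-!
# Project PJ, piece E2: the local image over the primes which divide the twisting factor (helper195)
-/

set_option autoImplicit false
set_option linter.all false

open Polynomial
open scoped Classical

namespace Pool.Agent.N195.PJ.E2

open Pool.Agent.N352.PJ

theorem e2 (hB1 : S_B1) : S_E2 := by
  intro E _ w c hc g D θ u v hg hwD hle hth0 hdf hu hcop hd hnear i hi
  have h : Hy w c g D θ := ⟨hc, hg, hwD, hle, hth0, hdf⟩
  set s := UniqueFactorizationMonoid.normalizedFactors u with hs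
  have hsprod : s.prod = u := by
    rw [hs, UniqueFactorizationMonoid.prod_normalizedFactors_eq hu.ne_zero]
    exact hu.normalize_eq_self
  have hsm : ∀ q ∈ s, q.Monic ∧ Irreducible q ∧ q ∣ u := by
    intro q hq
    have h1 := UniqueFactorizationMonoid.irreducible_of_normalized_factor q hq
    refine ⟨?_, h1, UniqueFactorizationMonoid.dvd_of_mem_normalizedFactors hq⟩
    have h2 := UniqueFactorizationMonoid.normalize_normalized_factor q hq
    rw [← h2]
    exact monic_normalize h1.ne_zero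
  have hcopd : ∀ q, q ∣ u → IsCoprime q (prd D θ) := fun q hq => hcop.of_isCoprime_of_dvd_left hq
  set s1 := s.filter (AB w D θ) with hs1
  set s2 := s.filter (fun q => ¬ AB w D θ q) with hs2
  have hsplit : s1.prod * s2.prod = u := by
    rw [← Multiset.prod_add, hs1, hs2, Multiset.filter_add_not, hsprod]
  obtain ⟨hm1, hSm1⟩ := h.ok_prod v s1 (fun q hq => by
    rw [hs1, Multiset.mem_filter] at hq
    obtain ⟨h1, h2, h3⟩ := hsm q hq.1
    exact ⟨h1, h2, hcopd q h3, h3.trans hd, hq.2⟩) i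
  have hm2 : s2.prod.Monic := by
    have h1 := monic_multiset_prod_of_monic s2 id
      (fun q hq => (hsm q (Multiset.mem_of_mem_filter hq)).1)
    rwa [Multiset.map_id] at h1
  have hroots : ∀ x ∈ rt s2.prod, w x ≤ w (ac D) ∧ ∀ l, ¬ w (x - ac (D * θ l)) < w (ac D) := by
    intro x hx
    rw [mem_rt _ hm2, ← coe_eval₂RingHom, map_multiset_prod, Multiset.prod_eq_zero_iff,
      Multiset.mem_map] at hx
    obtain ⟨q, hq, hqx⟩ := hx
    rw [hs2, Multiset.mem_filter] at hq
    obtain ⟨hq1, hq2⟩ := hq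
    have hxq : x ∈ rt q := by
      rw [mem_rt q (hsm q hq1).1]
      exact hqx
    refine ⟨not_lt.1 fun h1 => hq2 ⟨x, hxq, Or.inl h1⟩, fun l h1 => hq2 ⟨x, hxq, Or.inr ⟨l, h1⟩⟩⟩
  have hd2 : s2.prod ∣ v ^ 2 - prd D θ := (Dvd.intro_left _ hsplit).trans hd
  have hSm2 := h.caseC hB1 s2.prod v hm2 hd2 hroots i
  have hn : ∀ l, near w D u (θ l) = near w D s1.prod (θ l) := by
    intro l
    rw [← hsplit, near_mul D (θ l) _ _ hm1 hm2,
      Hy.near_none s2.prod hm2 (θ l) (fun x hx => (hroots x hx).2 l), add_zero]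
  have hSm : Sm (chi u (D * θ i)) ((-(D * θ i)) ^ (near w D u (θ 0) + near w D u (θ i))) := by
    have h1 : chi u (D * θ i) = chi s1.prod (D * θ i) * chi s2.prod (D * θ i) := by
      rw [← chi_mul _ _ hm1 hm2, hsplit]
    rw [h1]
    have h2 := hSm1.mul hSm2
    rw [mul_one] at h2
    refine h2.trans ?_
    simp only [← hn]
    exact h.total i hi (fun l => near w D u (θ l)) (fun l m hl hm => hnear l m hl hm)
  have hθi : θ i ≠ 0 := by
    intro h1
    have h2 := hdf i 0 hi
    have h3 : ac (θ i - θ 0) = - ac (θ 0) := by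
      rw [h1]
      simp only [ac, map_sub, map_zero]
      ring
    rw [h3, Valuation.map_neg] at h2
    rw [h2] at hth0
    exact lt_irrefl _ hth0
  have hz : -(D * θ i) ≠ 0 := neg_ne_zero.2 (mul_ne_zero h.D0 hθi)
  rcases Nat.even_or_odd (near w D u (θ 0) + near w D u (θ i)) with hev | hod
  · left
    obtain ⟨m, hm⟩ := hev
    apply Sm.isSquare
    refine hSm.trans ?_
    rw [hm]
    exact ⟨(-(D * θ i)) ^ m, pow_ne_zero _ hz, by ring⟩
  · right
    obtain ⟨m, hm⟩ := hod
    apply Sm.isSquare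
    refine (hSm.mul (Sm.refl (-(D * θ i)))).trans ?_
    rw [hm]
    exact ⟨(-(D * θ i)) ^ (m + 1), pow_ne_zero _ hz, by ring⟩

end Pool.Agent.N195.PJ.E2
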