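import Pool.Agent.N352.PJ.Loc

/-!
# Project PJ, piece E2, part 1: square classes, products over roots (helper195)
-/

set_option autoImplicit false
set_option linter.all false

open Polynomial
open scoped Classical

namespace Pool.Agent.N195.PJ.E2

open Pool.Agent.N352.PJ

variable {E : Type} [Field E] {w : Valuation (AlgebraicClosure E) NNReal} {c : NNReal}

/-- equal up to squares -/
def Sm (a b : E) : Prop := ∃ s : E, s ≠ 0 ∧ a = b * s ^ 2

theorem Sm.refl (a : E) : Sm a a := ⟨1, one_ne_zero, by simp⟩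

theorem Sm.symm {a b : E} (h : Sm a b) : Sm b a := by
  obtain ⟨s, hs, rfl⟩ := h
  exact ⟨s⁻¹, inv_ne_zero hs, by field_simp⟩

theorem Sm.trans {a b d : E} (h : Sm a b) (h' : Sm b d) : Sm a d := by
  obtain ⟨s, hs, rfl⟩ := h
  obtain ⟨t, ht, rfl⟩ := h'
  exact ⟨t * s, mul_ne_zero ht hs, by ring⟩

theorem Sm.mul {a b a' b' : E} (h : Sm a b) (h' : Sm a' b') : Sm (a * a') (b * b') := by
  obtain ⟨s, hs, rfl⟩ := h
  obtain ⟨t, ht, rfl⟩ := h'
  exact ⟨t * s, mul_ne_zero ht hs, by ring⟩

theorem Sm.pow {a b : E} (h : Sm a b) (n : ℕ) : Sm (a ^ n) (b ^ n) := by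
  obtain ⟨s, hs, rfl⟩ := h
  exact ⟨s ^ n, pow_ne_zero n hs, by rw [mul_pow, ← pow_mul, ← pow_mul, mul_comm 2 n]⟩

theorem Sm.prod {ι : Type*} (S : Finset ι) {f f' : ι → E} (h : ∀ i ∈ S, Sm (f i) (f' i)) :
    Sm (∏ i ∈ S, f i) (∏ i ∈ S, f' i) := by
  induction S using Finset.induction_on with
  | empty => simpa using Sm.refl (1 : E)
  | insert a S ha ih =>
    rw [Finset.prod_insert ha, Finset.prod_insert ha]
    exact (h a (Finset.mem_insert_self _ _)).mul (ih fun i hi => h i (Finset.mem_insert_of_mem hi))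

theorem Sm.sq_right {a b s : E} (hs : s ≠ 0) (h : Sm a (b * s ^ 2)) : Sm a b :=
  h.trans ⟨s, hs, rfl⟩

theorem Sm.isSquare {a : E} (h : Sm a 1) : IsSquare a := by
  obtain ⟨s, hs, rfl⟩ := h
  exact ⟨s, by ring⟩

/-- from `a b = N ^ 2` -/
theorem Sm.of_mul {a b N : E} (ha : a ≠ 0) (hb : b ≠ 0) (h : a * b = N ^ 2) : Sm a b := by
  have hN : N ≠ 0 := by
    rintro rfl
    rw [zero_pow two_ne_zero] at h
    exact (mul_ne_zero ha hb) h
  refine ⟨N / b, div_ne_zero hN hb, ?_⟩
  rw [div_pow, ← h]
  field_simp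

theorem Sm.of_close (hc : CV E w c) {a b : E} (h : w (ac a - ac b) < w (ac b)) : Sm a b := by
  have hb : b ≠ 0 := by
    rintro rfl
    simp [ac] at h
  have hb' : (ac b) ≠ 0 := by
    rw [ac, Ne, map_eq_zero_iff _ (algebraMap E (AlgebraicClosure E)).injective]; exact hb
  have hwb : w (ac b) ≠ 0 := by rw [Ne, map_eq_zero]; exact hb'
  have ha : a ≠ 0 := by
    rintro rfl
    have : w (ac (0 : E) - ac b) = w (ac b) := by
      rw [ac, map_zero, zero_sub, Valuation.map_neg]
    rw [this] at h
    exact lt_irrefl _ h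
  have h1 : w (algebraMap E (AlgebraicClosure E) (a / b) - 1) < 1 := by
    have h2 : algebraMap E (AlgebraicClosure E) (a / b) - 1 = (ac a - ac b) / ac b := by
      rw [map_div₀]
      field_simp
    rw [h2, map_div₀]
    exact (div_lt_one (zero_lt_iff.2 hwb)).2 h
  obtain ⟨s, hs⟩ := hc.sq _ h1
  refine ⟨s, ?_, ?_⟩
  · rintro rfl
    rw [mul_zero, div_eq_zero_iff] at hs
    rcases hs with h3 | h3
    · exact ha h3
    · exact hb h3
  · rw [pow_two, ← hs]
    field_simp

/-- products of close factors are close -/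
theorem prod_close {Ω : Type} [Field Ω] (w : Valuation Ω NNReal) (R : Multiset Ω) (f f' : Ω → Ω)
    (h : ∀ x ∈ R, w (f x - f' x) < w (f' x)) :
    w ((R.map f).prod - (R.map f').prod) < w ((R.map f').prod) := by
  induction R using Multiset.induction_on with
  | empty => simp
  | cons a R ih =>
    rw [Multiset.map_cons, Multiset.prod_cons, Multiset.map_cons, Multiset.prod_cons]
    have h1 := h a (Multiset.mem_cons_self _ _)
    have h2 := ih fun x hx => h x (Multiset.mem_cons_of_mem hx)
    set P := (R.map f).prod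
    set P' := (R.map f').prod
    have e1 : f a * P - f' a * P' = (f a - f' a) * P + f' a * (P - P') := by ring
    have h3 : w P = w P' := by
      have : P = (P - P') + P' := by ring
      rw [this]
      exact Valuation.map_add_eq_of_lt_right w h2
    rw [e1]
    refine Valuation.map_add_lt w ?_ ?_
    · rw [map_mul, map_mul, h3]
      exact mul_lt_mul_of_pos_right h1 (lt_of_le_of_lt zero_le h2)
    · rw [map_mul, map_mul]
      exact mul_lt_mul_of_pos_left h2 (lt_of_le_of_lt zero_le h1)

/-- the roots in the algebraic closure -/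
noncomputable def rt (q : E[X]) : Multiset (AlgebraicClosure E) :=
  (q.map (algebraMap E (AlgebraicClosure E))).roots

/-- `∏ (x - a)` over the roots of `q` -/
noncomputable def chi (q : E[X]) (a : E) : E := (-1) ^ q.natDegree * q.eval a

theorem map_eq (q : E[X]) (hq : q.Monic) :
    q.map (algebraMap E (AlgebraicClosure E)) = ((rt q).map (fun x => X - C x)).prod := by
  have h := (IsAlgClosed.splits (q.map (algebraMap E (AlgebraicClosure E)))).eq_prod_roots
  rw [(hq.map _).leadingCoeff, C_1, one_mul] at h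
  exact h

theorem card_rt (q : E[X]) (hq : q.Monic) : Multiset.card (rt q) = q.natDegree := by
  have h := (IsAlgClosed.splits (q.map (algebraMap E (AlgebraicClosure E)))).natDegree_eq_card_roots
  rw [natDegree_map] at h
  exact h.symm

theorem ac_chi (q : E[X]) (hq : q.Monic) (a : E) :
    ac (chi q a) = ((rt q).map (fun x => x - ac a)).prod := by
  have h1 : ac (q.eval a) = ((rt q).map (fun x => ac a - x)).prod := by
    have h2 : ac (q.eval a) = (q.map (algebraMap E (AlgebraicClosure E))).eval (ac a) := by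
      rw [eval_map, ac, eval₂_at_apply]
    rw [h2, map_eq q hq, eval_multiset_prod, Multiset.map_map]
    congr 1
    apply Multiset.map_congr rfl
    intro x _
    simp
  have h3 : ((rt q).map (fun x => x - ac a)) = ((rt q).map (fun x => ac a - x)).map Neg.neg := by
    rw [Multiset.map_map]
    apply Multiset.map_congr rfl
    intro x _
    simp
  rw [h3, Multiset.prod_map_neg, Multiset.card_map, card_rt q hq, ← h1, chi, ac, map_mul, map_pow,
    map_neg, map_one]

theorem chi_mul (p q : E[X]) (hp : p.Monic) (hq : q.Monic) (a : E) :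
    chi (p * q) a = chi p a * chi q a := by
  rw [chi, chi, chi, hp.natDegree_mul hq, eval_mul, pow_add]
  ring

theorem chi_one (a : E) : chi (1 : E[X]) a = 1 := by simp [chi]

theorem rt_mul (p q : E[X]) (hp : p.Monic) (hq : q.Monic) : rt (p * q) = rt p + rt q := by
  rw [rt, Polynomial.map_mul, roots_mul]
  · rfl
  · exact ((hp.map _).mul (hq.map _)).ne_zero

theorem mem_rt (q : E[X]) (hq : q.Monic) (x : AlgebraicClosure E) :
    x ∈ rt q ↔ eval₂ (algebraMap E (AlgebraicClosure E)) x q = 0 := by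
  rw [rt, mem_roots (hq.map _).ne_zero, IsRoot.def, eval_map]

theorem near_mul (D t : E) (p q : E[X]) (hp : p.Monic) (hq : q.Monic) :
    near w D (p * q) t = near w D p t + near w D q t := by
  have h := rt_mul p q hp hq
  unfold near
  unfold rt at h
  rw [h, Multiset.countP_add]

theorem near_one (D t : E) : near w D (1 : E[X]) t = 0 := by
  unfold near
  simp

/-- the product of `v (x)` over the roots of `q` -/
theorem norm_ex (q v : E[X]) (hq : q.Monic) : ∃ N : E,
    ac N = ((rt q).map (fun x => eval₂ (algebraMap E (AlgebraicClosure E)) x v)).prod := by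
  refine ⟨resultant q v q.natDegree v.natDegree, ?_⟩
  have h1 := resultant_eq_prod_eval (q.map (algebraMap E (AlgebraicClosure E)))
    (v.map (algebraMap E (AlgebraicClosure E))) v.natDegree (by rw [natDegree_map])
    (IsAlgClosed.splits _)
  rw [(hq.map _).leadingCoeff, one_pow, one_mul, natDegree_map, resultant_map_map] at h1
  rw [ac, h1]
  congr 1
  apply Multiset.map_congr rfl
  intro x _
  rw [eval_map]

/-- the product of all `chi q (D θ_l)` is a square -/
theorem prod_chi {n : ℕ} (D : E) (θ : Fin n → E) (q v : E[X]) (hq : q.Monic)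
    (hd : q ∣ v ^ 2 - prd D θ) : ∃ N : E, ∏ l, chi q (D * θ l) = N ^ 2 := by
  obtain ⟨N, hN⟩ := norm_ex q v hq
  refine ⟨N, (algebraMap E (AlgebraicClosure E)).injective ?_⟩
  rw [map_prod, map_pow]
  change ∏ l, ac (chi q (D * θ l)) = ac N ^ 2
  rw [hN, ← Multiset.prod_map_pow]
  simp_rw [ac_chi q hq]
  rw [← Multiset.prod_map_prod]
  congr 1
  apply Multiset.map_congr rfl
  intro x hx
  rw [mem_rt q hq] at hx
  obtain ⟨b, hb⟩ := hd
  have h1 : eval₂ (algebraMap E (AlgebraicClosure E)) x (v ^ 2 - prd D θ) = 0 := by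
    rw [hb, eval₂_mul, hx, zero_mul]
  rw [eval₂_sub, eval₂_pow, sub_eq_zero] at h1
  rw [h1, prd, eval₂_finset_prod]
  apply Finset.prod_congr rfl
  intro l _
  rw [eval₂_sub, eval₂_X, eval₂_C]

theorem chi_ne_zero {n : ℕ} (D : E) (θ : Fin n → E) (q : E[X]) (hcop : IsCoprime q (prd D θ))
    (l : Fin n) : chi q (D * θ l) ≠ 0 := by
  intro h0
  obtain ⟨a, b, hab⟩ := hcop
  have h1 : q.eval (D * θ l) = 0 := by
    rw [chi] at h0
    rcases mul_eq_zero.1 h0 with h | h
    · exact absurd h (pow_ne_zero _ (neg_ne_zero.2 one_ne_zero))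
    · exact h
  have h2 : (prd D θ).eval (D * θ l) = 0 := by
    rw [prd, eval_prod]
    exact Finset.prod_eq_zero (Finset.mem_univ l) (by simp)
  have h3 := congrArg (eval (D * θ l)) hab
  rw [eval_add, eval_mul, eval_mul, h1, h2, mul_zero, mul_zero, add_zero, eval_one] at h3
  exact zero_ne_one h3

/-- the roots of an irreducible polynomial are conjugate -/
theorem conj_rt (hc : CV E w c) (q : E[X]) (hq : q.Monic) (hirr : Irreducible q)
    (x y : AlgebraicClosure E) (hx : x ∈ rt q) (hy : y ∈ rt q) (t : E) :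
    w (x - ac t) = w (y - ac t) := by
  have hx' := minpoly.eq_of_irreducible_of_monic hirr ((mem_rt q hq x).1 hx) hq
  have hy' := minpoly.eq_of_irreducible_of_monic hirr ((mem_rt q hq y).1 hy) hq
  have h1 : IsConjRoot E x y := by rw [isConjRoot_def, ← hx', ← hy']
  obtain ⟨σ, hσ⟩ := isConjRoot_iff_exists_algEquiv.1 h1
  rw [← hσ, ← hc.conj σ (y - ac t)]
  congr 1
  rw [map_sub]
  congr 1
  exact (σ.commutes t).symm

theorem conj_rt0 (hc : CV E w c) (q : E[X]) (hq : q.Monic) (hirr : Irreducible q)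
    (x y : AlgebraicClosure E) (hx : x ∈ rt q) (hy : y ∈ rt q) : w x = w y := by
  have h := conj_rt hc q hq hirr x y hx hy 0
  simpa [ac] using h

end Pool.Agent.N195.PJ.E2
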