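import Pool.Agent.N195.PJ.E2a

/-!
# Project PJ, piece E2, part 2: irreducible factors away from the reduction (helper195)
-/

set_option autoImplicit false
set_option linter.all false

open Polynomial
open scoped Classical

namespace Pool.Agent.N195.PJ.E2

open Pool.Agent.N352.PJ

variable {E : Type} [Field E] {w : Valuation (AlgebraicClosure E) NNReal} {c : NNReal}

/-- the expected square class -/
noncomputable def FF {n : ℕ} (D : E) (θ : Fin n → E) (i : Fin n) (k : Fin n → ℕ) : E :=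
  (∏ l ∈ Finset.univ.erase i, (D * (θ l - θ i)) ^ (k l)) *
    (∏ m ∈ Finset.univ.erase i, (θ i - θ m)) ^ (k i)

theorem FF_add {n : ℕ} (D : E) (θ : Fin n → E) (i : Fin n) (k k' : Fin n → ℕ) :
    FF D θ i (fun l => k l + k' l) = FF D θ i k * FF D θ i k' := by
  simp only [FF, pow_add, Finset.prod_mul_distrib]
  ring

theorem FF_zero {n : ℕ} (D : E) (θ : Fin n → E) (i : Fin n) : FF D θ i (fun _ => 0) = 1 := by
  simp [FF]

/-- the hypotheses -/
structure Hy (w : Valuation (AlgebraicClosure E) NNReal) (c : NNReal) (g : ℕ) (D : E)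
    (θ : Fin (2 * g + 1) → E) : Prop where
  cv : CV E w c
  g1 : 1 ≤ g
  wD : w (ac D) = c
  le1 : ∀ i, w (ac (θ i)) ≤ 1
  th0 : w (ac (θ 0)) < 1
  df : ∀ i j, i ≠ j → w (ac (θ i - θ j)) = 1

variable {g : ℕ} {D : E} {θ : Fin (2 * g + 1) → E}

theorem Hy.D0 (h : Hy w c g D θ) : D ≠ 0 := by
  rintro rfl
  have h1 := h.wD
  have h2 := h.cv.c0
  rw [ac, map_zero, map_zero] at h1
  rw [← h1] at h2
  exact lt_irrefl _ h2

theorem Hy.wDθ (h : Hy w c g D θ) (i : Fin (2 * g + 1)) : w (ac (D * θ i)) ≤ w (ac D) := by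
  rw [ac, map_mul, map_mul]
  exact mul_le_of_le_one_right zero_le (h.le1 i)

theorem Hy.wsub (h : Hy w c g D θ) (i j : Fin (2 * g + 1)) (hij : i ≠ j) :
    w (ac (D * θ i) - ac (D * θ j)) = w (ac D) := by
  have h1 : ac (D * θ i) - ac (D * θ j) = ac D * ac (θ i - θ j) := by
    simp only [ac, map_mul, map_sub]
    ring
  rw [h1, map_mul, h.df i j hij, mul_one]

theorem Hy.Dpos (h : Hy w c g D θ) : 0 < w (ac D) := by rw [h.wD]; exact h.cv.c0

/-- near one `θ_l`, far from the others -/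
theorem Hy.far (h : Hy w c g D θ) (x : AlgebraicClosure E) (l m : Fin (2 * g + 1)) (hlm : l ≠ m)
    (hx : w (x - ac (D * θ l)) < w (ac D)) : w (x - ac (D * θ m)) = w (ac D) := by
  have h1 : x - ac (D * θ m) = (x - ac (D * θ l)) + (ac (D * θ l) - ac (D * θ m)) := by ring
  rw [h1, ← h.wsub l m hlm]
  apply Valuation.map_add_eq_of_lt_right
  rw [h.wsub l m hlm]
  exact hx

theorem Hy.big (h : Hy w c g D θ) (x : AlgebraicClosure E) (m : Fin (2 * g + 1))
    (hx : w (ac D) < w x) : w (x - ac (D * θ m)) = w x := by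
  have h1 : x - ac (D * θ m) = x + (-ac (D * θ m)) := by ring
  rw [h1]
  apply Valuation.map_add_eq_of_lt_left
  rw [Valuation.map_neg]
  exact lt_of_le_of_lt (h.wDθ m) hx

/-- roots near `D θ_l` -/
theorem Hy.chi_far (h : Hy w c g D θ) (q : E[X]) (hq : q.Monic) (l m : Fin (2 * g + 1))
    (hlm : l ≠ m) (hx : ∀ x ∈ rt q, w (x - ac (D * θ l)) < w (ac D)) :
    Sm (chi q (D * θ m)) ((D * (θ l - θ m)) ^ q.natDegree) := by
  apply Sm.of_close h.cv
  have h1 : ac ((D * (θ l - θ m)) ^ q.natDegree) =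
      ((rt q).map (fun _ => ac (D * θ l) - ac (D * θ m))).prod := by
    rw [Multiset.map_const', Multiset.prod_replicate, card_rt q hq]
    simp only [ac, map_mul, map_sub, map_pow]
    congr 1
    ring
  rw [h1, ac_chi q hq]
  apply prod_close
  intro x hxm
  rw [h.wsub l m hlm]
  have h2 : x - ac (D * θ m) - (ac (D * θ l) - ac (D * θ m)) = x - ac (D * θ l) := by ring
  rw [h2]
  exact hx x hxm

theorem Hy.near_all (q : E[X]) (hq : q.Monic) (t : E)
    (hx : ∀ x ∈ rt q, w (x - ac (D * t)) < w (ac D)) : near w D q t = q.natDegree := by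
  rw [← card_rt q hq]
  unfold near
  exact Multiset.countP_eq_card.2 hx

theorem Hy.near_none (q : E[X]) (hq : q.Monic) (t : E)
    (hx : ∀ x ∈ rt q, ¬ w (x - ac (D * t)) < w (ac D)) : near w D q t = 0 := by
  unfold near
  exact Multiset.countP_eq_zero.2 hx

/-- irreducible factors of the first kinds -/
def AB (w : Valuation (AlgebraicClosure E) NNReal) (D : E) (θ : Fin (2 * g + 1) → E) (q : E[X]) :
    Prop :=
  ∃ x ∈ rt q, w (ac D) < w x ∨ ∃ l, w (x - ac (D * θ l)) < w (ac D)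

theorem Hy.caseA (h : Hy w c g D θ) (q v : E[X]) (hq : q.Monic)
    (hcop : IsCoprime q (prd D θ)) (hd : q ∣ v ^ 2 - prd D θ)
    (hx : ∀ x ∈ rt q, w (ac D) < w x) (i : Fin (2 * g + 1)) :
    Sm (chi q (D * θ i)) (FF D θ i (fun l => near w D q (θ l))) := by
  have h0 : ∀ l, near w D q (θ l) = 0 := by
    intro l
    apply Hy.near_none q hq
    intro x hxm
    rw [h.big x l (hx x hxm)]
    exact not_lt.2 (hx x hxm).le
  simp only [h0]
  rw [FF_zero]
  have h1 : ∀ l, Sm (chi q (D * θ l)) (chi q 0) := by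
    intro l
    apply Sm.of_close h.cv
    rw [ac_chi q hq, ac_chi q hq]
    apply prod_close
    intro x hxm
    have h2 : x - ac (D * θ l) - (x - ac 0) = - ac (D * θ l) := by
      simp only [ac, map_zero]
      ring
    rw [h2, Valuation.map_neg]
    have h3 : x - ac (0 : E) = x := by simp [ac]
    rw [h3]
    exact lt_of_le_of_lt (h.wDθ l) (hx x hxm)
  have h2 : Sm (∏ l, chi q (D * θ l)) (∏ l : Fin (2 * g + 1), chi q 0) := Sm.prod _ fun l _ => h1 l
  obtain ⟨N, hN⟩ := prod_chi D θ q v hq hd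
  have hne : chi q (D * θ i) ≠ 0 := chi_ne_zero D θ q hcop i
  have hne0 : chi q 0 ≠ 0 := by
    intro h3
    obtain ⟨s, hs, hs'⟩ := h1 i
    rw [h3, zero_mul] at hs'
    exact hne hs'
  have hN0 : N ≠ 0 := by
    rintro rfl
    rw [zero_pow two_ne_zero, Finset.prod_eq_zero_iff] at hN
    obtain ⟨l, _, hl⟩ := hN
    exact chi_ne_zero D θ q hcop l hl
  rw [hN, Finset.prod_const, Finset.card_univ, Fintype.card_fin, pow_succ (chi q 0), pow_mul (chi q 0)] at h2
  have h3 : Sm (chi q 0) 1 := by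
    have h4 : Sm (N ^ 2) 1 := ⟨N, hN0, by ring⟩
    have h5 : Sm ((chi q 0 ^ 2) ^ g * chi q 0) (chi q 0) := ⟨chi q 0 ^ g, pow_ne_zero _ hne0, by
      ring⟩
    exact (h5.symm.trans h2.symm).trans h4
  exact (h1 i).trans h3

theorem FF_single {n : ℕ} (D : E) (θ : Fin n → E) (i l : Fin n) (hl : l ≠ i) (k : Fin n → ℕ)
    (hk : ∀ m, m ≠ l → k m = 0) : FF D θ i k = (D * (θ l - θ i)) ^ k l := by
  rw [FF, hk i hl.symm, pow_zero, mul_one]
  rw [Finset.prod_eq_single l]
  · intro b _ hb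
    rw [hk b hb, pow_zero]
  · intro h
    exact absurd (Finset.mem_erase.2 ⟨hl, Finset.mem_univ _⟩) h

theorem FF_self {n : ℕ} (D : E) (θ : Fin n → E) (i : Fin n) (k : Fin n → ℕ)
    (hk : ∀ m, m ≠ i → k m = 0) :
    FF D θ i k = (∏ m ∈ Finset.univ.erase i, (θ i - θ m)) ^ k i := by
  rw [FF, Finset.prod_eq_one, one_mul]
  intro l hl
  rw [hk l (Finset.ne_of_mem_erase hl), pow_zero]

theorem Hy.caseB (h : Hy w c g D θ) (q v : E[X]) (hq : q.Monic)
    (hcop : IsCoprime q (prd D θ)) (hd : q ∣ v ^ 2 - prd D θ) (l : Fin (2 * g + 1))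
    (hx : ∀ x ∈ rt q, w (x - ac (D * θ l)) < w (ac D)) (i : Fin (2 * g + 1)) :
    Sm (chi q (D * θ i)) (FF D θ i (fun l => near w D q (θ l))) := by
  have h0 : ∀ m, m ≠ l → near w D q (θ m) = 0 := by
    intro m hm
    apply Hy.near_none q hq
    intro x hxm
    rw [h.far x l m hm.symm (hx x hxm)]
    exact lt_irrefl _
  have hl : near w D q (θ l) = q.natDegree := Hy.near_all q hq _ hx
  by_cases hli : l = i
  · subst hli
    rw [FF_self D θ l _ h0, hl]
    obtain ⟨N, hN⟩ := prod_chi D θ q v hq hd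
    rw [← Finset.mul_prod_erase _ _ (Finset.mem_univ l)] at hN
    have h1 : Sm (chi q (D * θ l)) (∏ m ∈ Finset.univ.erase l, chi q (D * θ m)) := by
      apply Sm.of_mul (chi_ne_zero D θ q hcop l) _ hN
      rw [Finset.prod_ne_zero_iff]
      intro m _
      exact chi_ne_zero D θ q hcop m
    refine h1.trans ?_
    have h2 : Sm (∏ m ∈ Finset.univ.erase l, chi q (D * θ m))
        (∏ m ∈ Finset.univ.erase l, (D * (θ l - θ m)) ^ q.natDegree) :=
      Sm.prod _ fun m hm => h.chi_far q hq l m (Finset.ne_of_mem_erase hm).symm hx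
    refine h2.trans ⟨(D ^ g) ^ q.natDegree, pow_ne_zero _ (pow_ne_zero _ h.D0), ?_⟩
    rw [Finset.prod_pow, Finset.prod_mul_distrib, Finset.prod_const,
      Finset.card_erase_of_mem (Finset.mem_univ l), Finset.card_univ, Fintype.card_fin,
      Nat.add_sub_cancel, mul_pow]
    ring
  · rw [FF_single D θ i l hli _ h0, hl]
    exact h.chi_far q hq l i hli hx

theorem Hy.ok (h : Hy w c g D θ) (q v : E[X]) (hq : q.Monic) (hirr : Irreducible q)
    (hcop : IsCoprime q (prd D θ)) (hd : q ∣ v ^ 2 - prd D θ) (hAB : AB w D θ q)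
    (i : Fin (2 * g + 1)) :
    Sm (chi q (D * θ i)) (FF D θ i (fun l => near w D q (θ l))) := by
  obtain ⟨x, hx, hA | ⟨l, hl⟩⟩ := hAB
  · apply h.caseA q v hq hcop hd _ i
    intro y hy
    rw [← conj_rt0 h.cv q hq hirr x y hx hy]
    exact hA
  · apply h.caseB q v hq hcop hd l _ i
    intro y hy
    rw [← conj_rt h.cv q hq hirr x y hx hy]
    exact hl

/-- the product over factors of the first kinds -/
theorem Hy.ok_prod (h : Hy w c g D θ) (v : E[X]) (s : Multiset E[X])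
    (hs : ∀ q ∈ s, q.Monic ∧ Irreducible q ∧ IsCoprime q (prd D θ) ∧ q ∣ v ^ 2 - prd D θ ∧
      AB w D θ q) (i : Fin (2 * g + 1)) :
    s.prod.Monic ∧ Sm (chi s.prod (D * θ i)) (FF D θ i (fun l => near w D s.prod (θ l))) := by
  induction s using Multiset.induction_on with
  | empty =>
    rw [Multiset.prod_zero]
    refine ⟨monic_one, ?_⟩
    simp only [near_one, chi_one, FF_zero]
    exact Sm.refl 1
  | cons a s ih =>
    obtain ⟨h1, h2, h3, h4, h5⟩ := hs a (Multiset.mem_cons_self _ _)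
    obtain ⟨h6, h7⟩ := ih fun q hq => hs q (Multiset.mem_cons_of_mem hq)
    rw [Multiset.prod_cons]
    refine ⟨h1.mul h6, ?_⟩
    rw [chi_mul _ _ h1 h6]
    have h8 : (fun l => near w D (a * s.prod) (θ l)) =
        fun l => near w D a (θ l) + near w D s.prod (θ l) := by
      funext l
      exact near_mul D (θ l) a s.prod h1 h6
    rw [h8, FF_add]
    exact (h.ok a v h1 h2 h3 h4 h5 i).mul h7

/-- the total -/
theorem Hy.total (h : Hy w c g D θ) (i : Fin (2 * g + 1)) (hi : i ≠ 0) (k : Fin (2 * g + 1) → ℕ)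
    (hk : ∀ l m, l ≠ 0 → m ≠ 0 → k l = k m) :
    Sm (FF D θ i k) ((-(D * θ i)) ^ (k 0 + k i)) := by
  have h0 : (0 : Fin (2 * g + 1)) ∈ Finset.univ.erase i :=
    Finset.mem_erase.2 ⟨hi.symm, Finset.mem_univ _⟩
  set T := (Finset.univ.erase i).erase (0 : Fin (2 * g + 1)) with hT
  have hcard : T.card = 2 * g - 1 := by
    rw [hT, Finset.card_erase_of_mem h0, Finset.card_erase_of_mem (Finset.mem_univ i),
      Finset.card_univ, Fintype.card_fin]
    omega
  set P := ∏ m ∈ T, (θ i - θ m) with hP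
  have hθ : ∀ m, m ≠ i → θ i - θ m ≠ 0 := by
    intro m hm h1
    have h2 := h.df i m hm.symm
    rw [h1, ac, map_zero, map_zero] at h2
    exact zero_ne_one h2
  have hP0 : P ≠ 0 := by
    rw [hP, Finset.prod_ne_zero_iff]
    intro m hm
    exact hθ m (Finset.ne_of_mem_erase (Finset.mem_of_mem_erase hm))
  have h1 : ∏ l ∈ T, (D * (θ l - θ i)) ^ (k l) = ((-D) ^ (2 * g - 1) * P) ^ (k i) := by
    have h2 : ∏ l ∈ T, (D * (θ l - θ i)) ^ (k l) = ∏ l ∈ T, ((-D) * (θ i - θ l)) ^ (k i) := by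
      apply Finset.prod_congr rfl
      intro l hl
      rw [hk l i (Finset.ne_of_mem_erase hl) hi]
      congr 1
      ring
    rw [h2, Finset.prod_pow, Finset.prod_mul_distrib, Finset.prod_const, hcard]
  have h2 : FF D θ i k = (D * (θ 0 - θ i)) ^ (k 0 + k i) * ((D ^ (g - 1) * P) ^ (k i)) ^ 2 := by
    rw [FF, ← Finset.mul_prod_erase _ _ h0, ← Finset.mul_prod_erase _ (fun m => θ i - θ m) h0,
      ← hT, h1, ← hP]
    have e1 : 2 * g - 1 = 2 * (g - 1) + 1 := by have := h.g1; omega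
    have e2 : ((-D) ^ (2 * g - 1) * P) * ((θ i - θ 0) * P) =
        (D * (θ 0 - θ i)) * (D ^ (g - 1) * P) ^ 2 := by
      rw [e1, pow_succ (-D), pow_mul (-D), neg_sq]
      ring
    rw [mul_assoc, ← mul_pow, e2, mul_pow (D * (θ 0 - θ i)), pow_add, ← pow_mul, ← pow_mul,
      mul_comm 2 (k i)]
    ring
  have h3 : Sm (D * (θ 0 - θ i)) (-(D * θ i)) := by
    apply Sm.of_close h.cv
    have h4 : ac (D * (θ 0 - θ i)) - ac (-(D * θ i)) = ac (D * θ 0) := by
      simp only [ac, map_mul, map_sub, map_neg]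
      ring
    rw [h4]
    have h5 : w (ac (θ i)) = 1 := by
      have h6 := h.df i 0 hi
      have h7 : ac (θ i) = ac (θ i - θ 0) + ac (θ 0) := by
        simp only [ac, map_sub]
        ring
      rw [h7, Valuation.map_add_eq_of_lt_left w (by rw [h6]; exact h.th0), h6]
    have h6 : w (ac (-(D * θ i))) = w (ac D) := by
      rw [ac, map_neg, Valuation.map_neg, map_mul, map_mul, h5, mul_one]
    rw [h6, ac, map_mul, map_mul]
    exact mul_lt_of_lt_one_right h.Dpos h.th0
  rw [h2]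
  exact Sm.trans ⟨(D ^ (g - 1) * P) ^ (k i),
    pow_ne_zero _ (mul_ne_zero (pow_ne_zero _ h.D0) hP0), rfl⟩ (h3.pow _)

end Pool.Agent.N195.PJ.E2
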