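import Pool.Agent.N195.PJ.E2b

/-!
# Project PJ, piece E2, part 3: the factors with integral reduction (helper195)
-/

set_option autoImplicit false
set_option linter.all false

open Polynomial
open scoped Classical

namespace Pool.Agent.N195.PJ.E2

open Pool.Agent.N352.PJ

variable {E : Type} [Field E] {w : Valuation (AlgebraicClosure E) NNReal} {c : NNReal}
variable {g : ℕ} {D : E} {θ : Fin (2 * g + 1) → E}

/-- the valuation of `E` -/
noncomputable abbrev VV (w : Valuation (AlgebraicClosure E) NNReal) : Valuation E NNReal :=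
  w.comap (algebraMap E (AlgebraicClosure E))

theorem VV_apply (x : E) : VV w x = w (ac x) := rfl

theorem mem_int (x : E) : x ∈ (VV w).integer ↔ w (ac x) ≤ 1 := Iff.rfl

theorem Hy.memD (h : Hy w c g D θ) : D ∈ (VV w).integer := by
  rw [mem_int, h.wD]
  exact h.cv.c1.le

theorem Hy.val_nat (h : Hy w c g D θ) (x : (VV w).integer) (hx : x ≠ 0) :
    ∃ n : ℕ, w (ac (x : E)) = c ^ n := by
  obtain ⟨n, hn⟩ := h.cv.disc (x : E) (by simpa using hx)
  have h1 : w (ac (x : E)) ≤ 1 := x.2
  have h2 : w (ac (x : E)) = c ^ n := hn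
  rw [h2, zpow_le_one_iff_right_of_lt_one₀ h.cv.c0 h.cv.c1] at h1
  obtain ⟨k, rfl⟩ := Int.eq_ofNat_of_zero_le h1
  exact ⟨k, by rw [h2]; exact zpow_natCast c k⟩

theorem Hy.irr (h : Hy w c g D θ) : Irreducible (⟨D, h.memD⟩ : (VV w).integer) := by
  have hv := Valuation.integer.integers (VV w)
  refine ⟨?_, ?_⟩
  · rw [hv.isUnit_iff_valuation_eq_one]
    change ¬ w (ac D) = 1
    rw [h.wD]
    exact h.cv.c1.ne
  · intro a b hab
    have hab' : D = (a : E) * (b : E) := congrArg Subtype.val hab
    have ha : a ≠ 0 := by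
      rintro rfl
      apply h.D0
      rw [hab']; simp
    have hb : b ≠ 0 := by
      rintro rfl
      apply h.D0
      rw [hab']; simp
    obtain ⟨n, hn⟩ := h.val_nat a ha
    obtain ⟨m, hm⟩ := h.val_nat b hb
    have h1 : w (ac D) = c ^ (n + m) := by
      rw [hab', ac, map_mul, map_mul, pow_add]
      rw [ac] at hn hm
      rw [hn, hm]
    rw [h.wD] at h1
    have h2 : n + m = 1 := by
      have h3 : c ^ 1 = c ^ (n + m) := by rw [pow_one]; exact h1
      exact (pow_right_injective₀ h.cv.c0 h.cv.c1.ne h3).symm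
    rcases Nat.eq_zero_or_pos n with h3 | h3
    · left
      rw [hv.isUnit_iff_valuation_eq_one]
      change w (ac (a : E)) = 1
      rw [hn, h3, pow_zero]
    · right
      have h4 : m = 0 := by omega
      rw [hv.isUnit_iff_valuation_eq_one]
      change w (ac (b : E)) = 1
      rw [hm, h4, pow_zero]

theorem Hy.dvr (h : Hy w c g D θ) : IsDiscreteValuationRing (VV w).integer := by
  apply IsDiscreteValuationRing.ofHasUnitMulPowIrreducibleFactorization
  refine ⟨⟨D, h.memD⟩, h.irr, ?_⟩
  intro x hx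
  have hv := Valuation.integer.integers (VV w)
  obtain ⟨n, hn⟩ := h.val_nat x hx
  refine ⟨n, ?_⟩
  have h1 : VV w ((algebraMap (VV w).integer E) ((⟨D, h.memD⟩ : (VV w).integer) ^ n)) =
      VV w ((algebraMap (VV w).integer E) x) := by
    rw [map_pow, map_pow]
    change w (ac D) ^ n = w (ac (x : E))
    rw [h.wD, hn]
  exact associated_of_dvd_dvd (hv.dvd_of_le h1.ge) (hv.dvd_of_le h1.le)

/-- scaling of the variable -/
theorem comp_scale (u : E[X]) (D : E) (hD : D ≠ 0) :
    u.comp (C D * X) = C (D ^ u.natDegree) * u.scaleRoots D⁻¹ := by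
  ext n
  rw [comp_C_mul_X_coeff, coeff_C_mul, coeff_scaleRoots]
  by_cases hn : n ≤ u.natDegree
  · obtain ⟨m, hm⟩ := Nat.exists_eq_add_of_le hn
    rw [hm, Nat.add_sub_cancel_left, pow_add, inv_pow]
    field_simp
  · rw [coeff_eq_zero_of_natDegree_lt (not_le.1 hn)]
    simp

/-- coefficients of a product of `X - x` with `w x ≤ 1` -/
theorem coeff_prod_le {Ω : Type} [Field Ω] (w : Valuation Ω NNReal) (R : Multiset Ω)
    (h : ∀ x ∈ R, w x ≤ 1) (n : ℕ) : w (((R.map (fun x => X - C x)).prod).coeff n) ≤ 1 := by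
  induction R using Multiset.induction_on generalizing n with
  | empty =>
    rw [Multiset.map_zero, Multiset.prod_zero, coeff_one]
    split_ifs <;> simp
  | cons a R ih =>
    have ih' := ih fun x hx => h x (Multiset.mem_cons_of_mem hx)
    rw [Multiset.map_cons, Multiset.prod_cons, sub_mul, coeff_sub, coeff_C_mul]
    refine (w.map_sub _ _).trans (max_le ?_ ?_)
    · cases n with
      | zero => rw [coeff_X_mul_zero, map_zero]; exact zero_le
      | succ n => rw [coeff_X_mul]; exact ih' n
    · rw [map_mul]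
      exact mul_le_one' (h a (Multiset.mem_cons_self _ _)) (ih' n)

/-- integral coefficients after multiplication with a power of `D` -/
theorem Hy.bdd (h : Hy w c g D θ) (p : E[X]) : ∃ M : ℕ, ∀ n, w (ac ((C (D ^ M) * p).coeff n)) ≤ 1 := by
  have h1 : ∀ x : E, ∃ M : ℕ, ∀ M' ≥ M, w (ac (D ^ M' * x)) ≤ 1 := by
    intro x
    obtain ⟨M, hM⟩ := exists_pow_lt_of_lt_one (show (0 : NNReal) < (w (ac x) + 1)⁻¹ by positivity)
      h.cv.c1
    refine ⟨M, fun M' hM' => ?_⟩
    have h2 : c ^ M' ≤ c ^ M := pow_le_pow_of_le_one zero_le h.cv.c1.le hM'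
    have h3 : w (ac (D ^ M' * x)) = c ^ M' * w (ac x) := by
      simp only [ac, map_mul, map_pow]
      rw [← h.wD]
    rw [h3]
    calc c ^ M' * w (ac x) ≤ (w (ac x) + 1)⁻¹ * (w (ac x) + 1) :=
          mul_le_mul' (h2.trans hM.le) (le_self_add)
      _ = 1 := inv_mul_cancel₀ (by positivity)
  choose M hM using h1
  refine ⟨p.support.sup fun n => M (p.coeff n), fun n => ?_⟩
  rw [coeff_C_mul]
  by_cases hn : n ∈ p.support
  · exact hM _ _ (Finset.le_sup (f := fun n => M (p.coeff n)) hn)
  · rw [notMem_support_iff.1 hn, mul_zero, ac, map_zero, map_zero]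
    exact zero_le

theorem Hy.caseC (h : Hy w c g D θ) (hB1 : S_B1) (u v : E[X]) (hu : u.Monic)
    (hd : u ∣ v ^ 2 - prd D θ)
    (hx : ∀ x ∈ rt u, w x ≤ w (ac D) ∧ ∀ l, ¬ w (x - ac (D * θ l)) < w (ac D))
    (i : Fin (2 * g + 1)) :
    Sm (chi u (D * θ i)) 1 := by
  have hD := h.D0
  have hdvr := h.dvr
  have hv := Valuation.integer.integers (VV w)
  set U := u.scaleRoots D⁻¹ with hU
  have hUm : U.Monic := (monic_scaleRoots_iff _).2 hu
  have hcomp := comp_scale u D hD
  rw [← hU] at hcomp
  -- evaluation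
  have hev : ∀ t : E, u.eval (D * t) = D ^ u.natDegree * U.eval t := by
    intro t
    have h1 := congrArg (eval t) hcomp
    rw [eval_comp, eval_mul, eval_mul, eval_C, eval_C, eval_X] at h1
    exact h1
  -- the roots
  have hacD : ac D ≠ 0 := by
    rw [ac, Ne, map_eq_zero_iff _ (algebraMap E (AlgebraicClosure E)).injective]; exact hD
  have hUmap : U.map (algebraMap E (AlgebraicClosure E)) =
      (((rt u).map (fun x => x / ac D)).map (fun x => X - C x)).prod := by
    have h1 := congrArg (Polynomial.map (algebraMap E (AlgebraicClosure E))) hcomp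
    rw [Polynomial.map_comp, map_eq u hu, Polynomial.map_mul, Polynomial.map_mul, map_C, map_C,
      map_X, multiset_prod_comp, Multiset.map_map, map_pow] at h1
    have h2 : (rt u).map ((fun p : (AlgebraicClosure E)[X] => p.comp
        (C (algebraMap E (AlgebraicClosure E) D) * X)) ∘ fun x => X - C x) =
        (rt u).map (fun x => C (ac D) * (X - C (x / ac D))) := by
      apply Multiset.map_congr rfl
      intro x _
      simp only [Function.comp]
      rw [sub_comp, X_comp, C_comp, mul_sub, ← C_mul]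
      congr 2
      field_simp
    rw [h2, Multiset.prod_map_mul, Multiset.map_const', Multiset.prod_replicate, card_rt u hu,
      ← C_pow] at h1
    have h3 : (C ((ac D) ^ u.natDegree) : (AlgebraicClosure E)[X]) ≠ 0 :=
      C_ne_zero.2 (pow_ne_zero _ hacD)
    rw [Multiset.map_map]
    exact (mul_left_cancel₀ h3 h1).symm
  have hUc : ∀ n, w (ac (U.coeff n)) ≤ 1 := by
    intro n
    have h1 : ac (U.coeff n) = (U.map (algebraMap E (AlgebraicClosure E))).coeff n := by
      rw [coeff_map]
    rw [h1, hUmap]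
    apply coeff_prod_le
    intro x hxm
    rw [Multiset.mem_map] at hxm
    obtain ⟨y, hy, rfl⟩ := hxm
    rw [map_div₀]
    exact div_le_one_of_le₀ (hx y hy).1 zero_le
  -- the value at `θ l` is a unit
  have hUu : ∀ l, w (ac (U.eval (θ l))) = 1 := by
    intro l
    have h1 : w (ac (chi u (D * θ l))) = w (ac D) ^ u.natDegree := by
      rw [ac_chi u hu, ← card_rt u hu, map_multiset_prod, Multiset.map_map,
        ← Multiset.prod_replicate, ← Multiset.map_const']
      congr 1
      apply Multiset.map_congr rfl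
      intro x hxm
      simp only [Function.comp]
      apply le_antisymm _ (not_lt.1 ((hx x hxm).2 l))
      exact (w.map_sub _ _).trans (max_le (hx x hxm).1 (h.wDθ l))
    rw [chi, hev, ac, map_mul, map_mul, map_pow, map_neg, map_one, map_pow, map_mul, map_pow,
      Valuation.map_neg, map_one, one_pow, one_mul] at h1
    have h2 : w (ac D) ^ u.natDegree ≠ 0 := (pow_pos h.Dpos _).ne'
    have h3 : w (ac D ^ u.natDegree) * w (ac (U.eval (θ l))) = w (ac D) ^ u.natDegree := by
      rw [← h1, map_mul]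
    rw [map_pow] at h3
    exact mul_left_cancel₀ h2 (h3.trans (mul_one _).symm)
  -- polynomials over the ring of integers
  obtain ⟨M, hM⟩ := h.bdd (v.comp (C D * X))
  have hUs : (↑U.coeffs : Set E) ⊆ (VV w).integer := by
    intro x hxm
    obtain ⟨n, _, rfl⟩ := mem_coeffs_iff.1 hxm
    exact hUc n
  have has : (↑(C (D ^ M) * v.comp (C D * X)).coeffs : Set E) ⊆ (VV w).integer := by
    intro x hxm
    obtain ⟨n, _, rfl⟩ := mem_coeffs_iff.1 hxm
    exact hM n
  set UA := U.toSubring (VV w).integer hUs with hUA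
  set aA := (C (D ^ M) * v.comp (C D * X)).toSubring (VV w).integer has with haA
  let tA : Fin (2 * g + 1) → (VV w).integer := fun l => ⟨θ l, h.le1 l⟩
  let FA : (VV w).integer[X] := ∏ l, (X - C (tA l))
  have hUAm : UA.Monic := (monic_toSubring _ _ _).2 hUm
  have hUAmap : UA.map (VV w).integer.subtype = U := map_toSubring _ _ _
  have haAmap : aA.map (VV w).integer.subtype = C (D ^ M) * v.comp (C D * X) := map_toSubring _ _ _
  have hdvd : UA ∣ aA ^ 2 - C ((⟨D, h.memD⟩ : (VV w).integer) ^ (2 * M + (2 * g + 1))) * FA := by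
    rw [← map_dvd_map (VV w).integer.subtype Subtype.val_injective hUAm, hUAmap,
      Polynomial.map_sub, Polynomial.map_pow, haAmap, Polynomial.map_mul, map_C]
    obtain ⟨b, hb⟩ := hd
    have h1 : (v ^ 2 - prd D θ).comp (C D * X) = (u * b).comp (C D * X) := by rw [hb]
    rw [sub_comp, pow_comp, mul_comp, hcomp] at h1
    have h2 : (prd D θ).comp (C D * X) = C (D ^ (2 * g + 1)) * FA.map (VV w).integer.subtype := by
      rw [prd, prod_comp, Polynomial.map_prod, C_pow]
      have h3 : (C D : E[X]) ^ (2 * g + 1) = ∏ l : Fin (2 * g + 1), C D := by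
        rw [Finset.prod_const, Finset.card_univ, Fintype.card_fin]
      rw [h3, ← Finset.prod_mul_distrib]
      apply Finset.prod_congr rfl
      intro l _
      rw [sub_comp, X_comp, C_comp, Polynomial.map_sub, map_X, map_C, mul_sub, ← C_mul]
      rfl
    rw [h2] at h1
    refine ⟨C (D ^ (2 * M)) * (C (D ^ u.natDegree) * b.comp (C D * X)), ?_⟩
    have h3 : (VV w).integer.subtype ((⟨D, h.memD⟩ : (VV w).integer) ^ (2 * M + (2 * g + 1))) =
      D ^ (2 * M + (2 * g + 1)) := rfl
    rw [h3]
    have h4 : (C (D ^ M) * v.comp (C D * X)) ^ 2 -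
        C (D ^ (2 * M + (2 * g + 1))) * FA.map (VV w).integer.subtype =
        C (D ^ (2 * M)) * ((v.comp (C D * X)) ^ 2 -
          C (D ^ (2 * g + 1)) * FA.map (VV w).integer.subtype) := by
      rw [mul_pow, ← C_pow, ← pow_mul, mul_comm M 2, pow_add D, C_mul]
      ring
    rw [h4, h1]
    ring
  -- the residue
  have hres : ∀ y : (VV w).integer, IsLocalRing.residue (VV w).integer y = 0 ↔ w (ac (y : E)) < 1 := by
    intro y
    rw [IsLocalRing.residue_eq_zero_iff, IsLocalRing.mem_maximalIdeal, mem_nonunits_iff]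
    exact Valuation.Integer.not_isUnit_iff_valuation_lt_one
  have hevA : ∀ l, ((UA.eval (tA l) : (VV w).integer) : E) = U.eval (θ l) := by
    intro l
    have h1 : (VV w).integer.subtype (UA.eval (tA l)) = (UA.map (VV w).integer.subtype).eval (θ l) := by
      rw [eval_map, ← eval₂_at_apply]
      rfl
    rw [hUAmap] at h1
    exact h1
  have hcop : IsCoprime (UA.map (IsLocalRing.residue (VV w).integer))
      (FA.map (IsLocalRing.residue (VV w).integer)) := by
    rw [Polynomial.map_prod]
    apply IsCoprime.prod_right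
    intro l _
    rw [Polynomial.map_sub, map_X, map_C]
    apply IsCoprime.symm
    rw [(irreducible_X_sub_C _).coprime_iff_not_dvd, dvd_iff_isRoot, IsRoot.def, eval_map,
      eval₂_at_apply, hres, hevA, hUu]
    exact lt_irrefl _
  obtain ⟨ψ, hψm, hψ⟩ := hB1 (VV w).integer ⟨D, h.memD⟩ UA FA aA (2 * M + (2 * g + 1)) h.irr hUAm
    ⟨M + g, by ring⟩ hcop hdvd
  -- degree
  have hdeg : u.natDegree = 2 * ψ.natDegree := by
    have h1 := congrArg natDegree hψ
    rw [hUAm.natDegree_map, hψm.natDegree_pow, natDegree_toSubring, hU, natDegree_scaleRoots] at h1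
    exact h1
  -- value
  obtain ⟨s, hs⟩ := IsLocalRing.residue_surjective (R := (VV w).integer)
    (ψ.eval (IsLocalRing.residue (VV w).integer (tA i)))
  have h5 : IsLocalRing.residue (VV w).integer (UA.eval (tA i) - s ^ 2) = 0 := by
    rw [map_sub, map_pow, hs, ← eval₂_at_apply, ← eval_map, hψ, eval_pow, sub_self]
  rw [hres] at h5
  have h6 : ((UA.eval (tA i) - s ^ 2 : (VV w).integer) : E) = U.eval (θ i) - (s : E) ^ 2 := by
    rw [← hevA]
    rfl
  rw [h6] at h5
  have h7 : w (ac ((s : E) ^ 2)) = 1 := by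
    have h8 : ac ((s : E) ^ 2) = ac (U.eval (θ i)) + (- ac (U.eval (θ i) - (s : E) ^ 2)) := by
      simp only [ac, map_sub]
      ring
    rw [h8, Valuation.map_add_eq_of_lt_left, hUu]
    rw [Valuation.map_neg, hUu]
    exact h5
  have h8 : Sm (U.eval (θ i)) ((s : E) ^ 2) := by
    apply Sm.of_close h.cv
    rw [h7]
    have h9 : ac (U.eval (θ i)) - ac ((s : E) ^ 2) = ac (U.eval (θ i) - (s : E) ^ 2) := by
      simp only [ac, map_sub]
    rw [h9]
    exact h5
  have hs0 : (s : E) ≠ 0 := by
    intro h9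
    rw [h9, ac, zero_pow two_ne_zero, map_zero, map_zero] at h7
    exact zero_ne_one h7
  have h9 : Sm (U.eval (θ i)) 1 := h8.trans ⟨s, hs0, by ring⟩
  have h10 : chi u (D * θ i) = (D ^ ψ.natDegree) ^ 2 * U.eval (θ i) := by
    rw [chi, hev, hdeg, pow_mul, neg_one_sq, one_pow, one_mul, mul_comm 2, pow_mul]
  rw [h10]
  have h11 : Sm ((D ^ ψ.natDegree) ^ 2) 1 := ⟨D ^ ψ.natDegree, pow_ne_zero _ hD, by ring⟩
  simpa using h11.mul h9

end Pool.Agent.N195.PJ.E2
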